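import Pool.Agent.W2helper5.QD.Stm

/-!
Project QD, piece REG: facts on the regular polygon.
-/

set_option autoImplicit false

namespace Pool.Agent.W4helper65.QD

open MeasureTheory Set Pool.V11275.Quad Pool.Agent.Helper717.Hull1 Pool.Agent.Helper717.Hull2
open Pool.Agent.W2helper5.QD

lemma e_two_pi (θ : ℝ) (n : ℤ) : e (θ + n * (2 * Real.pi)) = e θ := by
  apply ext2
  · simp [Real.cos_add_int_mul_two_pi]
  · simp [Real.sin_add_int_mul_two_pi]

variable {m : ℕ}

lemma mal (hm : 3 ≤ m) : (m : ℝ) * al m = Real.pi := by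
  have : (m : ℝ) ≠ 0 := by
    have : (3 : ℝ) ≤ m := by exact_mod_cast hm
    linarith
  unfold al
  field_simp

lemma al_pos (hm : 3 ≤ m) : 0 < al m := by
  have : (3 : ℝ) ≤ m := by exact_mod_cast hm
  unfold al
  have := Real.pi_pos
  positivity

lemma al_le (hm : 3 ≤ m) : al m ≤ Real.pi / 3 := by
  have h3 : (3 : ℝ) ≤ m := by exact_mod_cast hm
  unfold al
  exact div_le_div_of_nonneg_left Real.pi_pos.le (by norm_num) h3

lemma cos_pos (hm : 3 ≤ m) : 0 < Real.cos (al m) :=
  Real.cos_pos_of_mem_Ioo ⟨by have := al_pos hm; have := Real.pi_pos; linarith,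
    by have := al_le hm; have := Real.pi_pos; linarith⟩

lemma sin_pos (hm : 3 ≤ m) : 0 < Real.sin (al m) :=
  Real.sin_pos_of_pos_of_lt_pi (al_pos hm) (by have := al_le hm; have := Real.pi_pos; linarith)

/-- the chain of vertices -/
noncomputable def v (m : ℕ) (i : ℕ) : E2 := w m (i : ℤ)

lemma w_mod (hm : 3 ≤ m) (k n : ℤ) : w m (k + n * m) = w m k := by
  unfold w
  rw [← e_two_pi (2 * k * al m) n]
  congr 1
  push_cast
  have := mal hm
  linear_combination (2 * (n : ℝ)) * this

lemma e_mod (hm : 3 ≤ m) (k n : ℤ) :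
    e ((2 * ((k + n * m : ℤ) : ℝ) + 1) * al m) = e ((2 * (k : ℝ) + 1) * al m) := by
  rw [← e_two_pi ((2 * (k : ℝ) + 1) * al m) n]
  congr 1
  push_cast
  have := mal hm
  linear_combination (2 * (n : ℝ)) * this

lemma exists_nat (hm : 3 ≤ m) (k : ℤ) : ∃ (i : ℕ) (n : ℤ), i < m ∧ k = (i : ℤ) + n * m := by
  have h0 : (0 : ℤ) < m := by omega
  refine ⟨(k % m).toNat, k / m, ?_, ?_⟩
  · have h1 := Int.emod_nonneg k h0.ne'
    have h2 := Int.emod_lt_of_pos k h0
    omega
  · have h1 := Int.emod_nonneg k h0.ne'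
    rw [Int.toNat_of_nonneg h1]
    have := Int.emod_add_mul_ediv k m
    linarith

lemma P_eq (hm : 3 ≤ m) : P m = poly m (v m) := by
  unfold P poly
  congr 1
  ext x
  constructor
  · rintro ⟨k, rfl⟩
    obtain ⟨i, n, hi, rfl⟩ := exists_nat hm k
    exact ⟨i, hi, (w_mod hm _ _).symm⟩
  · rintro ⟨i, _, rfl⟩
    exact ⟨(i : ℤ), rfl⟩

lemma orient_v (i : ℕ) (x : E2) : orient (v m i) (v m (i + 1)) x =
    2 * Real.sin (al m) * (Real.cos (al m) - dot (e ((2 * (i : ℝ) + 1) * al m)) x) := by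
  set A := al m with hA
  set c : ℝ := (2 * (i : ℝ) + 1) * A with hc
  have e1 : v m i = e (c - A) := by
    unfold v w
    congr 1
    push_cast
    rw [hc]
    ring
  have e2 : v m (i + 1) = e (c + A) := by
    unfold v w
    congr 1
    push_cast
    rw [hc]
    ring
  rw [e1, e2]
  simp only [orient, dot, e_zero', e_one', Real.cos_sub, Real.sin_sub, Real.cos_add, Real.sin_add]
  have h1 := Real.sin_sq_add_cos_sq c
  linear_combination (2 * Real.sin A * Real.cos A) * h1

lemma key (d : ℤ) : Real.cos (al m) - Real.cos ((2 * (d : ℝ) - 1) * al m) =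
    2 * (Real.sin (d * al m) * Real.sin ((d - 1) * al m)) := by
  have e1 : (2 * (d : ℝ) - 1) * al m = d * al m + (d - 1) * al m := by ring
  have e2 : Real.cos (al m) = Real.cos (d * al m - (d - 1) * al m) := by
    congr 1
    ring
  rw [e2, e1, Real.cos_add, Real.cos_sub]
  ring

lemma scp (hm : 3 ≤ m) : SCP m (v m) where
  three := hm
  closed := by
    have := w_mod hm 0 1
    simp only [zero_add, one_mul] at this
    exact this
  pos := by
    intro i hi k hk h1 h2 h3
    rw [orient_v]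
    refine mul_pos (mul_pos two_pos (sin_pos hm)) ?_
    have e1 : v m k = e (2 * (k : ℝ) * al m) := by
      unfold v w
      push_cast
      rfl
    have e2 : 2 * (k : ℝ) * al m - (2 * (i : ℝ) + 1) * al m =
        (2 * (((k : ℤ) - i : ℤ) : ℝ) - 1) * al m := by
      push_cast
      ring
    rw [e1, dot_e, e2, key]
    refine mul_pos two_pos ?_
    have hp := mal hm
    have ha := al_pos hm
    set d : ℤ := (k : ℤ) - i with hd
    rcases lt_or_ge 0 d with h | h
    · have hd2 : (2 : ℝ) ≤ d := by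
        have : (2 : ℤ) ≤ d := by omega
        exact_mod_cast this
      have hdm : (d : ℝ) < m := by
        have : d < m := by omega
        exact_mod_cast this
      refine mul_pos (Real.sin_pos_of_pos_of_lt_pi (by positivity) (by nlinarith))
        (Real.sin_pos_of_pos_of_lt_pi (mul_pos (by linarith) ha) (by nlinarith))
    · have hd2 : (d : ℝ) ≤ -1 := by
        have : d ≤ -1 := by omega
        exact_mod_cast this
      have hdm : (1 : ℝ) - m < d := by
        have : (1 : ℤ) - m < d := by omega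
        exact_mod_cast this
      refine mul_pos_of_neg_of_neg (Real.sin_neg_of_neg_of_neg_pi_lt (by nlinarith) (by nlinarith))
        (Real.sin_neg_of_neg_of_neg_pi_lt (by nlinarith) (by nlinarith))

lemma mem_P (hm : 3 ≤ m) (x : E2) :
    x ∈ P m ↔ ∀ k : ℤ, dot (e ((2 * k + 1) * al m)) x ≤ Real.cos (al m) := by
  rw [P_eq hm, (scp hm).mem_iff]
  have hs := sin_pos hm
  constructor
  · intro h k
    obtain ⟨i, n, hi, rfl⟩ := exists_nat hm k
    rw [e_mod hm]
    have h1 := h i hi
    rw [orient_v] at h1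
    have h2 := (mul_nonneg_iff_of_pos_left (mul_pos two_pos hs)).1 h1
    push_cast
    linarith
  · intro h i _
    rw [orient_v]
    have h1 := h (i : ℤ)
    push_cast at h1
    exact mul_nonneg (mul_pos two_pos hs).le (by linarith)

lemma dot_le (θ : ℝ) (x : E2) : dot (e θ) x ≤ ‖x‖ := by
  have h1 : (dot (e θ) x) ^ 2 ≤ ‖x‖ ^ 2 := by
    rw [EuclideanSpace.norm_sq_eq, Fin.sum_univ_two]
    simp only [dot, e_zero', e_one', Real.norm_eq_abs, sq_abs]
    have := Real.sin_sq_add_cos_sq θ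
    nlinarith [sq_nonneg (Real.cos θ * x 1 - Real.sin θ * x 0)]
  exact (abs_le_of_sq_le_sq' h1 (norm_nonneg _)).2

lemma norm_e (θ : ℝ) : ‖e θ‖ = 1 := by
  have h1 : ‖e θ‖ ^ 2 = 1 := by
    rw [EuclideanSpace.norm_sq_eq, Fin.sum_univ_two]
    simp only [e_zero', e_one', Real.norm_eq_abs, sq_abs]
    have := Real.sin_sq_add_cos_sq θ
    linarith
  exact (pow_eq_one_iff_of_nonneg (norm_nonneg _) two_ne_zero).1 h1

lemma ball_P (hm : 3 ≤ m) (x : E2) (hx : ‖x‖ ≤ Real.cos (al m)) : x ∈ P m := by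
  rw [mem_P hm]
  exact fun k => (dot_le _ x).trans hx

lemma dot_rotA (θ φ : ℝ) (x : E2) : dot (e θ) (rotA φ x) = dot (e (θ - φ)) x := by
  simp only [dot, rotA, e_zero', e_one', Real.cos_sub, Real.sin_sub]
  simp
  ring

lemma dot_rfl2 (θ : ℝ) (x : E2) : dot (e θ) (rfl2 x) = dot (e (-θ)) x := by
  simp [dot, rfl2]

lemma rotA_inv (φ : ℝ) (x : E2) : rotA φ (rotA (-φ) x) = x := by
  have := Real.sin_sq_add_cos_sq φ
  apply ext2
  · simp only [rotA, Real.cos_neg, Real.sin_neg]
    simp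
    linear_combination x 0 * this
  · simp only [rotA, Real.cos_neg, Real.sin_neg]
    simp
    linear_combination x 1 * this

lemma rfl2_inv (x : E2) : rfl2 (rfl2 x) = x := by
  apply ext2 <;> simp [rfl2]

lemma rot_mem (hm : 3 ≤ m) (n : ℤ) (x : E2) (hx : x ∈ P m) : rotA (2 * n * al m) x ∈ P m := by
  rw [mem_P hm] at hx ⊢
  intro k
  rw [dot_rotA]
  have := hx (k - n)
  have e1 : (2 * ((k - n : ℤ) : ℝ) + 1) * al m = (2 * k + 1) * al m - 2 * n * al m := by
    push_cast
    ring
  rw [e1] at this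
  exact this

lemma rfl_mem (hm : 3 ≤ m) (x : E2) (hx : x ∈ P m) : rfl2 x ∈ P m := by
  rw [mem_P hm] at hx ⊢
  intro k
  rw [dot_rfl2]
  have := hx (-k - 1)
  have e1 : (2 * ((-k - 1 : ℤ) : ℝ) + 1) * al m = -((2 * k + 1) * al m) := by
    push_cast
    ring
  rw [e1] at this
  exact this

lemma cos_le (hm : 3 ≤ m) (d : ℤ) : Real.cos ((2 * (d : ℝ) - 1) * al m) ≤ Real.cos (al m) := by
  have h : w m d ∈ P m := subset_convexHull ℝ _ ⟨d, rfl⟩
  have h1 := (mem_P hm _).1 h 0
  unfold w at h1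
  rw [dot_e] at h1
  have e1 : 2 * (d : ℝ) * al m - (2 * ((0 : ℤ) : ℝ) + 1) * al m = (2 * (d : ℝ) - 1) * al m := by
    push_cast
    ring
  rw [e1] at h1
  exact h1

lemma cone (a b θ : ℝ) (x : E2) : cr (e a) (e b) * dot (e θ) x =
    cr x (e b) * dot (e a) (e θ) + cr (e a) x * dot (e b) (e θ) := by
  simp only [cr, dot, e_zero', e_one']
  ring

lemma sector (hm : 3 ≤ m) (k : ℤ) (x : E2) (h1 : 0 ≤ cr (e (2 * k * al m)) x)
    (h2 : 0 ≤ cr x (e ((2 * k + 2) * al m)))
    (h3 : dot (e ((2 * k + 1) * al m)) x ≤ Real.cos (al m)) : x ∈ P m := by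
  rw [mem_P hm]
  intro i
  have hc := cos_pos hm
  have hs := sin_pos hm
  have e0 : cr (e (2 * k * al m)) (e ((2 * k + 2) * al m)) = Real.sin (2 * al m) := by
    rw [cr_e]
    congr 1
    ring
  have hs2 : 0 < Real.sin (2 * al m) := by
    rw [Real.sin_two_mul]
    positivity
  have k1 := cone (2 * k * al m) ((2 * k + 2) * al m) ((2 * k + 1) * al m) x
  have k2 := cone (2 * k * al m) ((2 * k + 2) * al m) ((2 * i + 1) * al m) x
  rw [e0, dot_e, dot_e] at k1 k2
  have e1 : (2 * (k : ℝ) + 1) * al m - 2 * k * al m = al m := by ring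
  have e2 : (2 * (k : ℝ) + 1) * al m - (2 * k + 2) * al m = -al m := by ring
  rw [e1, e2, Real.cos_neg, ← add_mul] at k1
  have k3 : cr x (e ((2 * k + 2) * al m)) + cr (e (2 * k * al m)) x ≤ Real.sin (2 * al m) := by
    have := mul_le_mul_of_nonneg_left h3 hs2.le
    rw [k1] at this
    exact le_of_mul_le_mul_right this hc
  have k4 : Real.cos ((2 * (i : ℝ) + 1) * al m - 2 * k * al m) ≤ Real.cos (al m) := by
    have := cos_le hm (i - k + 1)
    have e3 : (2 * ((i - k + 1 : ℤ) : ℝ) - 1) * al m = (2 * (i : ℝ) + 1) * al m - 2 * k * al m := by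
      push_cast
      ring
    rwa [e3] at this
  have k5 : Real.cos ((2 * (i : ℝ) + 1) * al m - (2 * k + 2) * al m) ≤ Real.cos (al m) := by
    have := cos_le hm (i - k)
    have e3 : (2 * ((i - k : ℤ) : ℝ) - 1) * al m =
        (2 * (i : ℝ) + 1) * al m - (2 * k + 2) * al m := by
      push_cast
      ring
    rwa [e3] at this
  have k6 := mul_le_mul_of_nonneg_left k4 h2
  have k7 := mul_le_mul_of_nonneg_left k5 h1
  have k8 := mul_le_mul_of_nonneg_right k3 hc.le
  have k9 : Real.sin (2 * al m) * dot (e ((2 * i + 1) * al m)) x ≤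
      Real.sin (2 * al m) * Real.cos (al m) := by
    rw [k2]
    linarith
  exact le_of_mul_le_mul_left k9 hs2

theorem REG : P_REG := by
  intro m hm
  have hc := cos_pos hm
  refine ⟨⟨convex_convexHull ℝ _, ?_, ?_⟩, ⟨Real.cos (al m), hc, ball_P hm⟩, ?_, ?_, ?_, ?_, ?_⟩
  · rw [P_eq hm]
    exact poly_compact _ _
  · refine ⟨0, mem_interior_iff_mem_nhds.2 ?_⟩
    refine Filter.mem_of_superset (Metric.ball_mem_nhds (0 : E2) hc) fun x hx => ball_P hm x ?_
    rw [mem_ball_zero_iff] at hx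
    exact hx.le
  · intro x hx
    have h : P m ⊆ Metric.closedBall (0 : E2) 1 := by
      refine convexHull_min ?_ (convex_closedBall _ _)
      rintro _ ⟨k, rfl⟩
      rw [mem_closedBall_zero_iff]
      exact (norm_e _).le
    have := h hx
    rwa [mem_closedBall_zero_iff] at this
  · intro k x hx
    exact (mem_P hm x).1 hx k
  · intro k x h1 h2 h3
    exact sector hm k x h1 h2 h3
  · apply Subset.antisymm
    · rintro _ ⟨x, hx, rfl⟩
      have := rot_mem hm 1 x hx
      simpa using this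
    · intro x hx
      refine ⟨rotA (-(2 * al m)) x, ?_, rotA_inv _ _⟩
      have := rot_mem hm (-1) x hx
      simpa using this
  · apply Subset.antisymm
    · rintro _ ⟨x, hx, rfl⟩
      exact rfl_mem hm x hx
    · intro x hx
      exact ⟨rfl2 x, rfl_mem hm x hx, rfl2_inv x⟩

end Pool.Agent.W4helper65.QD
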